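import Pool.Agent.H5.EF.Stm

/-!
# EF: part DIF, differentiability in the initial value
-/

set_option autoImplicit false

open Set Filter Topology

namespace H31.EF

open H5.EF

theorem t_DIF (hGRO : S_GRO) (hLIPG : S_LIPG) (hBD : S_BD) (hFD : S_FD) : S_DIF := by
  intro m p γ R u v φ ψ hm hp hγ hR hu hφ ε hε
  set M : ℝ := γ + 1 with hM
  have hM0 : 0 < M := by linarith
  obtain ⟨C, hC, hCl⟩ := hLIPG m p M R hm hp hM0 hR
  set L : ℝ := p * M ^ (p - 1) with hL
  have hL0 : 0 ≤ L := mul_nonneg (by linarith) (Real.rpow_nonneg hM0.le _)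
  set A : ℝ := C * R ^ 2 * Real.exp (L * R ^ 2) with hA
  have hA0 : 0 < A := by positivity
  set η : ℝ := ε / A with hη
  have hη0 : 0 < η := div_pos hε hA0
  -- uniform continuity
  have hcont : Continuous (fun x : ℝ => p * |x| ^ (p - 1)) := by
    apply Continuous.mul continuous_const
    exact (continuous_abs).rpow_const (fun x => Or.inr (by linarith))
  have huc : UniformContinuousOn (fun x : ℝ => p * |x| ^ (p - 1)) (Icc (-M) M) :=
    isCompact_Icc.uniformContinuousOn_of_continuous hcont.continuousOn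
  rw [Metric.uniformContinuousOn_iff] at huc
  obtain ⟨ρ, hρ, hρl⟩ := huc η hη0
  refine ⟨min 1 (ρ / C), lt_min one_pos (div_pos hρ hC), ?_⟩
  intro γ' u' v' h1 h2 hu' r hr
  have h3 : γ' ≤ M := by
    have := min_le_left 1 (ρ / C)
    rw [hM]; linarith
  have h4 : γ' - γ < ρ / C := by
    have := min_le_right 1 (ρ / C)
    linarith
  have h5 : C * (γ' - γ) < ρ := by
    rw [lt_div_iff₀ hC] at h4
    linarith
  have hd : 0 < γ' - γ := by linarith
  have hlip : ∀ r ∈ Icc 0 R, |u' r - u r| ≤ C * (γ' - γ) := by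
    intro r hr
    have := (hCl γ' γ u' v' u v (by linarith) h3 hγ.le (by rw [hM]; linarith) hu' hu r hr).1
    rwa [abs_of_pos hd] at this
  have hbu : ∀ r ∈ Icc 0 R, |u r| ≤ M := fun r hr =>
    le_trans (hBD m p γ R u v hm hp hγ.le hu r hr) (by rw [hM]; linarith)
  have hbu' : ∀ r ∈ Icc 0 R, |u' r| ≤ M := fun r hr =>
    le_trans (hBD m p γ' R u' v' hm hp (by linarith) hu' r hr) h3
  -- the bracket
  have hbr : ∀ r ∈ Icc 0 R, |ff p (u' r) - ff p (u r) - p * |u r| ^ (p - 1) * (u' r - u r)| ≤
      η * (C * (γ' - γ)) := by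
    intro r hr
    have hx := hbu r hr
    have hy := hbu' r hr
    have hxy := hlip r hr
    have hmv := (convex_uIcc (u r) (u' r)).norm_image_sub_le_of_norm_hasDerivWithin_le
      (f := fun x => ff p x - p * |u r| ^ (p - 1) * x)
      (f' := fun x => p * |x| ^ (p - 1) - p * |u r| ^ (p - 1)) (C := η)
      (fun x _ => by
        have h := ((hFD p hp).1 x).sub ((hasDerivAt_id x).const_mul (p * |u r| ^ (p - 1)))
        simp only [id, mul_one] at h
        exact h.hasDerivWithinAt)
      (fun x hx' => by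
        have hxI : x ∈ Icc (-M) M := by
          have hu1 : u r ∈ Icc (-M) M := abs_le.mp hx
          have hu2 : u' r ∈ Icc (-M) M := abs_le.mp hy
          exact (ordConnected_Icc.uIcc_subset hu1 hu2) hx'
        have hdist : dist x (u r) < ρ := by
          rw [Real.dist_eq]
          refine lt_of_le_of_lt ?_ h5
          refine le_trans ?_ hxy
          have := abs_sub_left_of_mem_uIcc hx'
          rw [abs_sub_comm] at this
          exact abs_sub_left_of_mem_uIcc hx'
        have := hρl x hxI (u r) (abs_le.mp hx) hdist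
        rw [Real.dist_eq] at this
        rw [Real.norm_eq_abs]
        exact this.le)
      left_mem_uIcc right_mem_uIcc
    rw [Real.norm_eq_abs, Real.norm_eq_abs] at hmv
    have e : ff p (u' r) - ff p (u r) - p * |u r| ^ (p - 1) * (u' r - u r) =
        (ff p (u' r) - p * |u r| ^ (p - 1) * u' r) - (ff p (u r) - p * |u r| ^ (p - 1) * u r) := by
      ring
    rw [e]
    refine le_trans hmv ?_
    exact mul_le_mul_of_nonneg_left hxy hη0.le
  have key := hGRO m R L (η * (C * (γ' - γ))) 0
    (fun r => u' r - u r - (γ' - γ) * φ r) (fun r => v' r - v r - (γ' - γ) * ψ r)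
    (fun r => ff p (u' r) - ff p (u r) - (γ' - γ) * (p * |u r| ^ (p - 1) * φ r))
    hm hR hL0 (by positivity)
    ((hu'.cy.sub hu.cy).sub (continuousOn_const.mul hφ.cy))
    ((hu'.cz.sub hu.cz).sub (continuousOn_const.mul hφ.cz))
    (by
      show v' 0 - v 0 - (γ' - γ) * ψ 0 = 0
      rw [hu'.z0, hu.z0, hφ.z0]; ring)
    (by
      show |u' 0 - u 0 - (γ' - γ) * φ 0| ≤ 0
      rw [hu'.y0, hu.y0, hφ.y0]; simp)
    (fun r hr => ((hu'.dy r hr).sub (hu.dy r hr)).sub ((hφ.dy r hr).const_mul _))
    (fun r hr => by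
      have h := ((hu'.dz r hr).sub (hu.dz r hr)).sub ((hφ.dz r hr).const_mul (γ' - γ))
      refine h.congr_deriv ?_
      ring)
    (fun r hr => by
      have hr' : r ∈ Icc 0 R := Ioo_subset_Icc_self hr
      have hb := hbr r hr'
      have e : ff p (u' r) - ff p (u r) - (γ' - γ) * (p * |u r| ^ (p - 1) * φ r) =
          p * |u r| ^ (p - 1) * (u' r - u r - (γ' - γ) * φ r) +
          (ff p (u' r) - ff p (u r) - p * |u r| ^ (p - 1) * (u' r - u r)) := by ring
      show |ff p (u' r) - ff p (u r) - (γ' - γ) * (p * |u r| ^ (p - 1) * φ r)| ≤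
        L * |u' r - u r - (γ' - γ) * φ r| + η * (C * (γ' - γ))
      rw [e]
      refine le_trans (abs_add_le _ _) (add_le_add ?_ hb)
      rw [abs_mul]
      apply mul_le_mul_of_nonneg_right _ (abs_nonneg _)
      rw [abs_of_nonneg (mul_nonneg (by linarith) (Real.rpow_nonneg (abs_nonneg _) _)), hL]
      apply mul_le_mul_of_nonneg_left _ (by linarith)
      exact Real.rpow_le_rpow (abs_nonneg _) (hbu r hr') (by linarith))
    r hr
  refine le_trans key.1 ?_
  have e : (0 + η * (C * (γ' - γ)) * R ^ 2) * Real.exp (L * R ^ 2) = η * A * (γ' - γ) := by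
    rw [hA]; ring
  rw [e, hη, div_mul_cancel₀ _ hA0.ne']

end H31.EF
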